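import Pool.Agent.H98.SD.Targets

/-!
# DXS, COM, CO2. Sections and comprehension (MP_e37c09_lc)
-/

open Ordinal Cardinal Order Set
open scoped ZFSet

universe u

namespace Pool.Agent.H70.SD

open _root_.HD _root_.HD.SD

/-- ordinals may be substituted for infinitely many variables -/
theorem dz_mix {Q : (ℕ → ZFSet.{u}) → Prop} (hQ : DZ Q) (σ : ℕ → ℕ ⊕ Ordinal.{u}) :
    DZ fun v => Q fun n => Sum.elim v Ordinal.toZFSet (σ n) := by
  obtain ⟨φ, p, hφ⟩ := hQ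
  let τ : ℕ ⊕ Ordinal.{u} → Ordinal.{u} := Sum.elim (fun _ => 0) id
  let p' : ℕ → Ordinal.{u} := fun n => if n % 2 = 0 then p (n / 2) else τ (σ (n / 2))
  have hp1 : ∀ n, p' (2 * n) = p n := fun n => by simp [p']
  have hp2 : ∀ n, p' (2 * n + 1) = τ (σ n) := fun n => by
    have h1 : (2 * n + 1) % 2 = 1 := by omega
    have h2 : (2 * n + 1) / 2 = n := by omega
    simp [p', h1, h2]
  let ρ : ℕ → ℕ := fun m => if m % 2 = 0 then
    Sum.elim (fun k => 2 * k) (fun _ => 2 * (2 * (m / 2) + 1) + 1) (σ (m / 2))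
    else 2 * (2 * (m / 2)) + 1
  refine ⟨φ.ren ρ, p', fun v => ?_⟩
  rw [sat_ren]
  refine (hφ _).trans (Eq.to_iff ?_)
  have : mz v p' ∘ ρ = mz (fun n => Sum.elim v Ordinal.toZFSet (σ n)) p := by
    funext m
    rcases Nat.even_or_odd' m with ⟨k, rfl | rfl⟩
    · have h1 : 2 * k % 2 = 0 := by omega
      have h2 : 2 * k / 2 = k := by omega
      rw [Function.comp_apply, mz_even]
      simp only [ρ, h1, h2, if_true]
      rcases hs : σ k with a | a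
      · simp only [Sum.elim_inl]
        exact mz_even _ _ _
      · simp only [Sum.elim_inr]
        rw [mz_odd, hp2, hs]
        rfl
    · have h1 : (2 * k + 1) % 2 = 1 := by omega
      have h2 : (2 * k + 1) / 2 = k := by omega
      rw [Function.comp_apply, mz_odd]
      simp only [ρ, h1, h2, one_ne_zero, if_false]
      rw [mz_odd, hp1]
  rw [this]

/-- ordinals may be substituted for all variables but the first one -/
theorem dz_fix1 {Q : (ℕ → ZFSet.{u}) → Prop} (hQ : DZ Q) (w : ℕ → Ordinal.{u}) :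
    DZ fun v => Q (cons (v 0) (ov w)) := by
  refine (dz_mix hQ fun n => if n = 0 then Sum.inl 0 else Sum.inr (w (n - 1))).congr fun v => ?_
  refine Eq.to_iff (congrArg Q (funext fun n => ?_))
  rcases n with _ | n <;> rfl

/-- ordinals may be substituted for all variables but the first two -/
theorem dz_fix2 {Q : (ℕ → ZFSet.{u}) → Prop} (hQ : DZ Q) (w : ℕ → Ordinal.{u}) :
    DZ fun v => Q (cons (v 0) (cons (v 1) (ov w))) := by
  refine (dz_mix hQ fun n => if n = 0 then Sum.inl 0 else if n = 1 then Sum.inl 1 else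
    Sum.inr (w (n - 2))).congr fun v => ?_
  refine Eq.to_iff (congrArg Q (funext fun n => ?_))
  rcases n with _ | _ | n <;> rfl

/-- ordinals may be substituted for all variables but the first three -/
theorem dz_fix3 {Q : (ℕ → ZFSet.{u}) → Prop} (hQ : DZ Q) (w : ℕ → Ordinal.{u}) :
    DZ fun v => Q (cons (v 0) (cons (v 1) (cons (v 2) (ov w)))) := by
  refine (dz_mix hQ fun n => if n = 0 then Sum.inl 0 else if n = 1 then Sum.inl 1 else
    if n = 2 then Sum.inl 2 else Sum.inr (w (n - 3))).congr fun v => ?_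
  refine Eq.to_iff (congrArg Q (funext fun n => ?_))
  rcases n with _ | _ | _ | n <;> rfl

theorem pf_DXS : T_DXS.{u} := by
  intro en hen
  refine ⟨⟨_, NF.dz_en' hen (R := fun y v => ZFSet.pair (v 0) (v 1) ∈ y) 2
    (loc_pmem 1 2 0).dz, fun x w => ?_⟩, ⟨_, NF.dz_en' hen (R := fun y v => ∃ p,
      p = ZFSet.pair (v 1) (v 3) ∧ ZFSet.pair (v 0) p ∈ y) 2 (DZ.ex (R := fun p v =>
      p = ZFSet.pair (v 2) (v 4) ∧ ZFSet.pair (v 1) p ∈ v 0)
      ((loc_pair 0 3 5).dz.and (loc_pmem 2 0 1).dz)), fun x w => ?_⟩⟩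
  · have e1 : (cons x (ov w) 2).rank = w 1 := rank_toZFSet _
    rw [e1]
    exact ⟨fun h => ⟨ZFSet.isOrdinal_toZFSet _, h⟩, fun h => h.2⟩
  · have e1 : (cons x (ov w) 2).rank = w 1 := rank_toZFSet _
    rw [e1]
    exact ⟨fun h => ⟨ZFSet.isOrdinal_toZFSet _, _, rfl, h⟩, fun ⟨_, p, hp, h⟩ => by
      subst hp
      exact h⟩

theorem pf_COM : T_COM.{u} := by
  intro en hen P hP l κ w
  obtain ⟨Q, hQ, h⟩ := hP
  have hQ2 := dz_fix2 hQ w
  let A : ZFSet.{u} := ZFSet.sep (fun p => ∃ x b, p = ZFSet.pair x b ∧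
    Q (cons x (cons b (ov w)))) (ZFSet.prod (V_ l) κ.toZFSet)
  have hA : OD A := by
    refine OD.of_mem (P := fun v => ∃ x ∈ V_ l, ∃ b ∈ κ.toZFSet,
      Q (cons x (cons b (ov w))) ∧ v 0 = ZFSet.pair x b) ?_ fun v => ?_
    · refine DZ.od (R := fun a v => ∃ x ∈ a, ∃ b ∈ κ.toZFSet,
        Q (cons x (cons b (ov w))) ∧ v 0 = ZFSet.pair x b) (NF.od_V l) (DZ.exMem 0 ?_)
      refine DZ.od (R := fun a v => ∃ b ∈ a, Q (cons (v 0) (cons b (ov w))) ∧
        v 2 = ZFSet.pair (v 0) b) (OD.ordinal κ) (DZ.exMem 0 ?_)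
      refine DZ.and ?_ (loc_pair 4 2 0).dz
      exact hQ2.ren fun n => if n = 0 then 2 else 0
    · rw [ZFSet.mem_sep]
      constructor
      · rintro ⟨x, hx, b, hb, hq, hv⟩
        rw [hv]
        exact ⟨ZFSet.pair_mem_prod.2 ⟨hx, hb⟩, x, b, rfl, hq⟩
      · rintro ⟨h1, x, b, hv, hq⟩
        rw [hv] at h1
        obtain ⟨hx, hb⟩ := ZFSet.pair_mem_prod.1 h1
        exact ⟨x, hx, b, hb, hq, hv⟩
  obtain ⟨c, hc⟩ := (hen.od A).1 hA
  refine ⟨c, fun x hx b => ?_⟩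
  show ZFSet.pair x b.toZFSet ∈ en c ↔ _
  rw [hc, ZFSet.mem_sep, ZFSet.pair_mem_prod, toZFSet_mem_toZFSet_iff, h, ov_cns]
  constructor
  · rintro ⟨⟨-, h1⟩, x', b', he, hq⟩
    obtain ⟨rfl, rfl⟩ := ZFSet.pair_injective he
    exact ⟨h1, hq⟩
  · rintro ⟨h1, h2⟩
    exact ⟨⟨hx, h1⟩, _, _, rfl, h2⟩

theorem pf_CO2 : T_CO2.{u} := by
  intro en hen P hP l κ μ w
  obtain ⟨Q, hQ, h⟩ := hP
  have hQ3 := dz_fix3 hQ w
  let A : ZFSet.{u} := ZFSet.sep (fun p => ∃ x b i, p = ZFSet.pair x (ZFSet.pair b i) ∧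
    Q (cons x (cons b (cons i (ov w))))) (ZFSet.prod (V_ l) (ZFSet.prod κ.toZFSet μ.toZFSet))
  have hA : OD A := by
    refine OD.of_mem (P := fun v => ∃ x ∈ V_ l, ∃ b ∈ κ.toZFSet, ∃ i ∈ μ.toZFSet,
      Q (cons x (cons b (cons i (ov w)))) ∧ ∃ p, p = ZFSet.pair b i ∧ v 0 = ZFSet.pair x p)
      ?_ fun v => ?_
    · refine DZ.od (R := fun a v => ∃ x ∈ a, ∃ b ∈ κ.toZFSet, ∃ i ∈ μ.toZFSet,
        Q (cons x (cons b (cons i (ov w)))) ∧ ∃ p, p = ZFSet.pair b i ∧ v 0 = ZFSet.pair x p)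
        (NF.od_V l) (DZ.exMem 0 ?_)
      refine DZ.od (R := fun a v => ∃ b ∈ a, ∃ i ∈ μ.toZFSet,
        Q (cons (v 0) (cons b (cons i (ov w)))) ∧ ∃ p, p = ZFSet.pair b i ∧
          v 2 = ZFSet.pair (v 0) p) (OD.ordinal κ) (DZ.exMem 0 ?_)
      refine DZ.od (R := fun a v => ∃ i ∈ a,
        Q (cons (v 2) (cons (v 0) (cons i (ov w)))) ∧ ∃ p, p = ZFSet.pair (v 0) i ∧
          v 4 = ZFSet.pair (v 2) p) (OD.ordinal μ) (DZ.exMem 0 ?_)
      refine DZ.and ?_ (DZ.ex (R := fun p v => p = ZFSet.pair (v 2) (v 0) ∧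
        v 6 = ZFSet.pair (v 4) p) ((loc_pair 0 3 1).dz.and (loc_pair 7 5 0).dz))
      exact hQ3.ren fun n => if n = 0 then 4 else if n = 1 then 2 else 0
    · rw [ZFSet.mem_sep]
      constructor
      · rintro ⟨x, hx, b, hb, i, hi, hq, p, rfl, hv⟩
        rw [hv]
        exact ⟨ZFSet.pair_mem_prod.2 ⟨hx, ZFSet.pair_mem_prod.2 ⟨hb, hi⟩⟩, x, b, i, rfl, hq⟩
      · rintro ⟨h1, x, b, i, hv, hq⟩
        rw [hv] at h1
        obtain ⟨hx, hb⟩ := ZFSet.pair_mem_prod.1 h1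
        obtain ⟨hb, hi⟩ := ZFSet.pair_mem_prod.1 hb
        exact ⟨x, hx, b, hb, i, hi, hq, _, rfl, hv⟩
  obtain ⟨c, hc⟩ := (hen.od A).1 hA
  refine ⟨c, fun x hx b i => ?_⟩
  show ZFSet.pair x (ZFSet.pair b.toZFSet i.toZFSet) ∈ en c ↔ _
  rw [hc, ZFSet.mem_sep, ZFSet.pair_mem_prod, ZFSet.pair_mem_prod, toZFSet_mem_toZFSet_iff,
    toZFSet_mem_toZFSet_iff, h, ov_cns, ov_cns]
  constructor
  · rintro ⟨⟨-, h1, h2⟩, x', b', i', he, hq⟩
    obtain ⟨h4, h5⟩ := ZFSet.pair_injective he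
    obtain ⟨h6, h7⟩ := ZFSet.pair_injective h5
    rw [← h4, ← h6, ← h7] at hq
    exact ⟨h1, h2, hq⟩
  · rintro ⟨h1, h2, h3⟩
    exact ⟨⟨hx, h1, h2⟩, _, _, _, rfl, h3⟩

end Pool.Agent.H70.SD
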